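import Pool.Agent.H78.So3Final

/-!
Problem MP_393361_al, for all admissible triples: the module generated by any admissible triple is
an orthogonal complement.  The definitions are in `Pool.Agent.H78.So3Defs`.
-/

set_option autoImplicit false

namespace Pool.Agent.Results.MP_393361_al.AdmissibleTriples

open Pool.Agent.H78.So3

/-- For every factoring subalgebra `U` the elements `E_i`, the constants and the triple `R0` of the
problem exist and are unique; the admissible triples are exactly the triples `Q R0` with `Q` a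
scalar Taylor series, `Q(0) = 1`; every admissible triple generates, as a `U`-module, the orthogonal
complement of `U` for the form `res P (X, Y)` for exactly one Taylor series `P` with `P(0) = 1`; and
each such `P` comes from exactly one admissible triple. -/
theorem result (U : Submodule ℂ V) (hU : Factoring U) :
    (∃! E : Fin 3 → V, IsE U E) ∧
    ∀ E : Fin 3 → V, IsE U E →
      (∃! c : Fin 6 → ℂ, URel E (c 0) (c 1) (c 2) (c 3) (c 4) (c 5)) ∧
      ∀ u v w x y z : ℂ, URel E u v w x y z →
        (∃! R0 : Fin 3 → V, Admissible E R0 u v w x y z ∧ ∀ i, R0 i ∈ perp 1 U) ∧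
        (∀ R0 : Fin 3 → V, (Admissible E R0 u v w x y z ∧ ∀ i, R0 i ∈ perp 1 U) →
          ∀ R : Fin 3 → V, Admissible E R u v w x y z ↔
            ∃ Q : PowerSeries ℂ, PowerSeries.constantCoeff Q = 1 ∧
              ∀ i, R i = (Q : LS) • R0 i) ∧
        (∀ R : Fin 3 → V, Admissible E R u v w x y z →
          ∃! P : PowerSeries ℂ, PowerSeries.constantCoeff P = 1 ∧ modGen U R = perp P U) ∧
        (∀ P : PowerSeries ℂ, PowerSeries.constantCoeff P = 1 →
          ∃! R : Fin 3 → V, Admissible E R u v w x y z ∧ modGen U R = perp P U) := by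
  refine ⟨existsUnique_E hU, ?_⟩
  intro E hE
  refine ⟨existsUnique_consts hU hE, ?_⟩
  intro u v w x y z hc
  refine ⟨existsUnique_R0 hU hE hc, ?_, ?_, ?_⟩
  · intro R0 hR0 R
    exact admissible_iff hU hE hc ((admissible_iff_isR hU hE hc).mp hR0) R
  · intro R hR
    obtain ⟨P, hP, hPR⟩ := modGen_admissible hU hE hc hR
    refine ⟨P, ⟨hP, hPR⟩, ?_⟩
    rintro P' ⟨hP', hPR'⟩
    exact perp_injective hU hP' hP (hPR'.symm.trans hPR)
  · intro P hP
    obtain ⟨R0, hR0⟩ := exists_IsR hU
    have hPi : P * P⁻¹ = 1 := PowerSeries.mul_inv_cancel P (by rw [hP]; exact one_ne_zero)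
    have hR : modGen U (fun i => ((P⁻¹ : PowerSeries ℂ) : LS) • R0 i) = perp P U :=
      modGen_scale hU hR0 hPi
    have hA : Admissible E (fun i => ((P⁻¹ : PowerSeries ℂ) : LS) • R0 i) u v w x y z :=
      (admissible_iff hU hE hc hR0 _).mpr ⟨P⁻¹, by simp [hP], fun i => rfl⟩
    refine ⟨_, ⟨hA, hR⟩, ?_⟩
    rintro R' ⟨hA', hR'⟩
    obtain ⟨Q, hQ, hQR⟩ := (admissible_iff hU hE hc hR0 R').mp hA'
    have hQi : Q⁻¹ * Q = 1 := by
      rw [mul_comm]; exact PowerSeries.mul_inv_cancel Q (by rw [hQ]; exact one_ne_zero)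
    have hQi2 : Q * Q⁻¹ = 1 := PowerSeries.mul_inv_cancel Q (by rw [hQ]; exact one_ne_zero)
    have h1 : modGen U (fun i => (Q : LS) • R0 i) = perp Q⁻¹ U := modGen_scale hU hR0 hQi
    have h2 : R' = fun i => (Q : LS) • R0 i := funext hQR
    rw [h2, h1] at hR'
    have h3 : Q⁻¹ = P := perp_injective hU (by simp [hQ]) hP hR'
    have h4 : Q = P⁻¹ := by
      calc Q = Q * (P * P⁻¹) := by rw [hPi, mul_one]
        _ = Q * (Q⁻¹ * P⁻¹) := by rw [h3]
        _ = P⁻¹ := by rw [← mul_assoc, hQi2, one_mul]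
    rw [h2, h4]

end Pool.Agent.Results.MP_393361_al.AdmissibleTriples
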