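import Pool.Agent.H78.So3Final

/-!
Problem MP_393361_al, for the triples `R0_i + S e_i` exactly as the problem file writes them.  The
definitions are in `Pool.Agent.H78.So3Defs`.
-/

set_option autoImplicit false

namespace Pool.Agent.Results.MP_393361_al.LiteralTriples

open Pool.Agent.H78.So3

/-- First part: for every factoring `U` and every `S`, the module `M_S` generated by the triple
`R0_i + S e_i` is an orthogonal complement of `U` for some form `res P (X, Y)` if and only if
`S = 0` or the three `E_i` have the form `h e_i` with one scalar series `h`.  Second part: there is a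
factoring `U` for which no `M_S` with `S` nonzero is such a complement. -/
theorem result :
    (∀ U : Submodule ℂ V, Factoring U → ∀ E : Fin 3 → V, IsE U E →
      ∀ u v w x y z : ℂ, URel E u v w x y z →
      ∀ R0 : Fin 3 → V, (Admissible E R0 u v w x y z ∧ ∀ i, R0 i ∈ perp 1 U) →
      ∀ S : PowerSeries ℂ,
        (∃ P : PowerSeries ℂ, modGen U (fun i => R0 i + (S : LS) • e i) = perp P U) ↔
          (S = 0 ∨ ∃ h : LS, ∀ i, E i = h • e i)) ∧
    (∃ (U : Submodule ℂ V) (E : Fin 3 → V) (u v w x y z : ℂ) (R0 : Fin 3 → V),
      Factoring U ∧ IsE U E ∧ URel E u v w x y z ∧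
      Admissible E R0 u v w x y z ∧ (∀ i, R0 i ∈ perp 1 U) ∧
      ∀ S : PowerSeries ℂ, S ≠ 0 → ∀ P : PowerSeries ℂ,
        modGen U (fun i => R0 i + (S : LS) • e i) ≠ perp P U) := by
  constructor
  · intro U hU E hE u v w x y z hc R0 hR0 S
    exact classification hU hE ((admissible_iff_isR hU hE hc).mp hR0) S
  · obtain ⟨E, hE⟩ := exists_IsE exU_factoring
    obtain ⟨R0, hR0⟩ := exists_IsR exU_factoring
    have hc := urel_exists exU_factoring hE
    have hA := (admissible_iff_isR exU_factoring hE hc).mpr hR0
    refine ⟨exU, E, _, _, _, _, _, _, R0, exU_factoring, hE, hc, hA.1, hA.2, ?_⟩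
    intro S hS P hP
    rcases (classification exU_factoring hE hR0 S).mp ⟨P, hP⟩ with h | h
    · exact hS h
    · exact exU_not_scalar E hE h

end Pool.Agent.Results.MP_393361_al.LiteralTriples
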